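import Pool.Agent.N327.AD.Mid

/-!
The criterion for the compression in the direction of the time derivative together with the energy
equality, internal form. The proof of `mid` is the one of helper327 (`Pool/Agent/N327/AD/Mid.lean`)
with the energy equality recorded in addition.
-/

set_option autoImplicit false
set_option linter.unusedSectionVars false

open MeasureTheory Set Filter Topology
open scoped InnerProductSpace ENNReal ContDiff NNReal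

namespace Pool.Agent.N830.EL

open H772R2.NS H772R2.NS.Pub H772R2.NSR H772R2.NSG
open Pool.Agent.W795.TQ
open Pool.Agent.Y303.RA (Hom hom_tensL rate)
open Pool.Agent.R462.HC (FB)
open Pool.Agent.N327.AC (core mem_ae)
open Pool.Agent.N327.AD

/-- The energy equality of a strong solution, for the given gradient. -/
theorem energy_of_str {Ω : Set E3} {C : ℝ} (Fr : Frame (graphW Ω) (tensL (Ω := Ω)) C) {ν T : ℝ}
    {F : ℝ → L2M Ω} {u w w1 : ℝ → L2V Ω} {z y y1 : ℝ → L2M Ω} (hT : 0 < T)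
    (B : Str (graphW Ω) tensL ν T F w w1 y y1) (huw : ∀ t ∈ Icc 0 T, u t = w t)
    (hmem : ∀ᵐ t ∂(volume.restrict (Ioc 0 T)), (u t, z t) ∈ graphW Ω) :
    ∀ t ∈ Icc 0 T, ‖u t‖ ^ 2 / 2 + ν * (∫ s in (0 : ℝ)..t, ‖z s‖ ^ 2)
      = ‖u 0‖ ^ 2 / 2 + ∫ s in (0 : ℝ)..t, ⟪F s, z s⟫_ℝ := by
  intro t ht
  have hz : ∀ᵐ s ∂(volume.restrict (Ioc 0 T)), z s = y s := by
    filter_upwards [hmem, ae_restrict_mem measurableSet_Ioc] with s hs hsI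
    have h1 := B.mem s ⟨hsI.1.le, hsI.2⟩
    rw [← huw s ⟨hsI.1.le, hsI.2⟩] at h1
    have h2 := Fr.uniq _ ((graphW Ω).sub_mem hs h1) (sub_self _)
    exact sub_eq_zero.1 h2
  have hz' : ∀ᵐ s, s ∈ Set.uIoc 0 t → z s = y s := by
    rw [uIoc_of_le ht.1]
    have := (ae_restrict_iff' measurableSet_Ioc).1 hz
    filter_upwards [this] with s hs hst
    exact hs ⟨hst.1, hst.2.trans ht.2⟩
  have e1 : ∫ s in (0 : ℝ)..t, ‖z s‖ ^ 2 = ∫ s in (0 : ℝ)..t, ‖y s‖ ^ 2 :=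
    intervalIntegral.integral_congr_ae (by filter_upwards [hz'] with s hs h; rw [hs h])
  have e2 : ∫ s in (0 : ℝ)..t, ⟪F s, z s⟫_ℝ = ∫ s in (0 : ℝ)..t, ⟪F s, y s⟫_ℝ :=
    intervalIntegral.integral_congr_ae (by filter_upwards [hz'] with s hs h; rw [hs h])
  rw [e1, e2, huw t ht, huw 0 ⟨le_rfl, hT.le⟩]
  exact B.energy t ht

theorem mid (hit : S_iter) (hode : S_ode) (htp : S_dtp) (he1 : S_est1) (he2 : S_est2)
    (hloc : S_loc) (huni : S_uni) (hun : S_univ) {θ K : ℝ} (hθ : 0 ≤ θ) (hθ1 : θ < 1) (hK : 0 ≤ K)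
    (hK1 : K < 3 / 4) : ∃ κ : ℝ, 0 < κ ∧
    ∀ (Ω : Set E3), IsOpen Ω → Bornology.IsBounded Ω → ∀ (ν T : ℝ), 0 < ν → 0 < T →
    ∀ (F F' : ℝ → L2M Ω), MemLp F' 2 (volume.restrict (Ioc 0 T)) →
    (∀ a b, 0 ≤ a → a ≤ b → b ≤ T → F b - F a = ∫ s in a..b, F' s) →
    ∀ (u : ℝ → L2V Ω) (z : ℝ → L2M Ω), AEStronglyMeasurable u (volume.restrict (Ioc 0 T)) →
    (∀ᵐ t ∂(volume.restrict (Ioc 0 T)), (u t, z t) ∈ graphW Ω) →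
    MemLp z 2 (volume.restrict (Ioc 0 T)) →
    (∀ φ : E3 → E3, H772R2.NS.IsTest Ω φ → ∀ t ∈ Icc 0 T,
      (∫ x in (show Set R3 from Ω), ⟪L2.fn (Ω := Ω) (E := R3) (u t) x, (φ : R3 → R3) x⟫_ℝ)
        - (∫ x in (show Set R3 from Ω), ⟪L2.fn (Ω := Ω) (E := R3) (u 0) x, (φ : R3 → R3) x⟫_ℝ)
      = ∫ s in (0 : ℝ)..t, Pub.rhs (Ω := Ω) ν (u s) (z s) (F s) φ) →
    (∀ t ∈ Icc 0 T, ‖u t‖ ^ 2 / 2 + ν * (∫ s in (0 : ℝ)..t, ‖z s‖ ^ 2)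
      ≤ ‖u 0‖ ^ 2 / 2 + ∫ s in (0 : ℝ)..t, ⟪F s, z s⟫_ℝ) →
    ∀ z0 : L2M Ω, (u 0, z0) ∈ graphW Ω →
    (∃ h : L2V Ω, ∀ φ : E3 → E3, H772R2.NS.IsTest Ω φ →
      Pub.rhs (Ω := Ω) ν (u 0) z0 (F 0) φ
        = ∫ x in (show Set R3 from Ω), ⟪L2.fn (Ω := Ω) (E := R3) h x, (φ : R3 → R3) x⟫_ℝ) →
    (∀ t ∈ Icc 0 T, ‖u t‖ ^ 2 / 2 + ν * (∫ s in (0 : ℝ)..t, ‖z s‖ ^ 2)
      = ‖u 0‖ ^ 2 / 2 + ∫ s in (0 : ℝ)..t, ⟪F s, z s⟫_ℝ) ∨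
    ∃ τ ∈ Ioc 0 T, ∃ (u' : ℝ → L2V Ω) (G1 G' : ℝ → L2M Ω),
      (∀ t ∈ Ioo 0 τ, IsStrong (show Set R3 from Ω) ν t F u u' G1 G') ∧
      (∀ t ∈ Ico 0 τ, ‖u t‖ ^ 2 / 2 + ν * (∫ s in (0 : ℝ)..t, ‖z s‖ ^ 2)
        = ‖u 0‖ ^ 2 / 2 + ∫ s in (0 : ℝ)..t, ⟪F s, z s⟫_ℝ) ∧
      ∀ (a b : ℝ≥0∞) (w g : ℝ → E3 → ℝ) (B : ℝ → ℝ) (t1 : ℝ), 2 / a + 3 / b = 2 → a ≠ ⊤ →
        t1 < τ → MemLp B a (volume.restrict (Ioo t1 τ)) →
        ¬ ∀ᵐ t ∂(volume.restrict (Ioo t1 τ)),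
          AEStronglyMeasurable (w t) ((volume : Measure E3).restrict Ω) ∧
          eLpNorm (w t) b ((volume : Measure E3).restrict Ω) ≤ ENNReal.ofReal (B t) ∧
          AEStronglyMeasurable (g t) ((volume : Measure E3).restrict Ω) ∧
          eLpNorm (g t) 1 ((volume : Measure E3).restrict Ω)
            ≤ ENNReal.ofReal (κ * ν ^ (5 / 2 : ℝ) * (τ - t) ^ (-(5 / 2) : ℝ)) ∧
          ∃ W : E3 → ℝ, FB Ω W ∧ ∀ᵐ x ∂((volume : Measure E3).restrict Ω),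
            -⟪G1 t x, tens (u' t x)⟫_ℝ ≤
              (θ * ν * W x + K / (τ - t) + w t x) * ‖u' t x‖ ^ 2 + g t x := by
  obtain ⟨c, hc, hU⟩ := hun
  obtain ⟨κ₀, hκ₀, hrate⟩ := rate hit hode htp he1 he2 hloc huni c hc
  set ε := (1 - θ) / 2 with hε
  have hε0 : 0 < ε := by rw [hε]; linarith
  have hq : 0 < 3 / 2 - 2 * K := by linarith
  refine ⟨κ₀ ^ 2 * (3 / 2 - 2 * K) / 8, by positivity, ?_⟩
  intro Ω hΩ hb ν T hν hT F F' hF1 hF u z hmeas hmem hz2 heqn hen z0 h0 hg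
  obtain ⟨C, Fr⟩ := exists_frame hΩ hb
  obtain ⟨g0, hg0⟩ := hg
  have hm : MeasurableSet Ω := hΩ.measurableSet
  have hcomp : ∀ p ∈ graphW Ω, ⟪F 0 - ν • z0 + tensL (u 0), p.2⟫_ℝ = ⟪g0, p.1⟫_ℝ := by
    refine compat_ext ?_
    rintro p ⟨φ, k1, k2, k3⟩
    rw [← pub_rhs hm ν (F 0) h0 k3, ← pub_inner (Ω := Ω) g0 k2]
    exact hg0 φ k1
  have hFc : ContinuousOn F (Icc 0 T) := prim_cont hF1 hF
  have hLH := lh_mid hΩ hFc Fr hmeas hmem hz2 heqn hen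
  rcases hrate (L2V Ω) (L2M Ω) (graphW Ω) tensL C ν T F F' (u 0) g0 z0 u z Fr (hU _ hΩ)
    (rellich_W hΩ hb) hν hT ⟨hF1, hF⟩ h0 hcomp hLH with ⟨w, w1, y, y1, k1, k2⟩ | ⟨τ, hτ, k1, _, k3⟩
  · exact Or.inl (energy_of_str Fr hT k1 k2 hmem)
  refine Or.inr ⟨τ, hτ, deriv u, gz (graphW Ω) u, deriv (gz (graphW Ω) u),
    fun t ht => strong_of_str hΩ ht.1 (k1 t ht) fun _ _ => rfl, fun t ht => ?_, ?_⟩
  · have h1 : (t + τ) / 2 ∈ Ioo 0 τ := ⟨by linarith [ht.1, hτ.1], by linarith [ht.2]⟩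
    refine energy_of_str Fr h1.1 (k1 _ h1) (fun _ _ => rfl) ?_ t ⟨ht.1, by linarith [ht.2]⟩
    exact ae_mono (Measure.restrict_mono (Ioc_subset_Ioc_right (h1.2.le.trans hτ.2)) le_rfl) hmem
  intro a b w g B t1 hab ha ht1 hB hyp
  obtain ⟨hb3, hb1, ha0, hae⟩ := serrin_exp2 hab ha
  set s := (3 / (2 * b)).toReal with hs
  have hs0 : 0 ≤ s := ENNReal.toReal_nonneg
  set Cst : ℝ := (((CS : ℝ) ^ s) ^ 2) ^ (1 / (1 - s)) * (ε * ν) ^ (-(s / (1 - s))) with hCst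
  have hCst0 : 0 ≤ Cst := by positivity
  have hΛi : IntegrableOn (fun t => Cst * ‖B t‖ ^ (1 / (1 - s))) (Ioo t1 τ) := by
    have := (hB.integrable_norm_rpow ha0 ha).const_mul Cst
    rw [hae] at this
    exact this
  have hν52 : 0 < ν ^ (5 / 2 : ℝ) := Real.rpow_pos_of_pos hν _
  set σ := κ₀ ^ 2 * (3 / 2 - 2 * K) / 8 * ν ^ (5 / 2 : ℝ) with hσ
  have hσ0 : 0 ≤ σ := by positivity
  have hσ1 : 8 * σ ≤ κ₀ ^ 2 * ν ^ (5 / 2 : ℝ) * (3 / 2 - 2 * K) := by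
    rw [hσ]
    apply le_of_eq
    ring
  have ht2 : max t1 0 < τ := max_lt ht1 hτ.1
  have hmem2 := mem_ae hτ.1 k1
  refine core Fr (hom_tensL hm) hν hτ.1 hτ.2 ⟨hF1, hF⟩ k1 hκ₀ k3 (δ := ε) (γ := K) (σ := σ)
    (t1 := max t1 0) hε0 hK hK1 hσ0 hσ1 ht2 (Λ := fun t => Cst * ‖B t‖ ^ (1 / (1 - s)))
    (fun t => by positivity) (hΛi.mono_set (Ioo_subset_Ioo_left (le_max_left _ _))) ?_
  filter_upwards [ae_mono (Measure.restrict_mono (Ioo_subset_Ioo_left (le_max_left _ _)) le_rfl) hyp,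
    ae_mono (Measure.restrict_mono (Ioo_subset_Ioo_left (le_max_right _ _)) le_rfl) hmem2,
    ae_restrict_mem measurableSet_Ioo] with t h1 h2 htI
  obtain ⟨e1, e2, e3, e4, W, hW, e5⟩ := h1
  have hp : 0 < τ - t := by linarith [htI.2]
  have hp52 : 0 ≤ (τ - t) ^ (-(5 / 2) : ℝ) := Real.rpow_nonneg hp.le _
  have key := comb2 hm (p := (deriv u t, deriv (gz (graphW Ω) u) t))
    (q := (u t, gz (graphW Ω) u t)) h2.2 hW e1 e3 (b := b) (ν := ν) (θ := θ)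
    (B := K / (τ - t)) (Bw := ‖B t‖)
    (G := κ₀ ^ 2 * (3 / 2 - 2 * K) / 8 * ν ^ (5 / 2 : ℝ) * (τ - t) ^ (-(5 / 2) : ℝ)) (ε := ε)
    hb3 hb1 hν hθ (norm_nonneg _) (by positivity) hε0
    (e2.trans (ENNReal.ofReal_le_ofReal (Real.le_norm_self _))) e4 e5
  refine key.trans (le_of_eq ?_)
  have a1 : θ + ε = 1 - ε := by rw [hε]; ring
  rw [a1]

end Pool.Agent.N830.EL
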