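import Pool.Agent.N327.LE.Mid
import Pool.Agent.N830.EL.Mid

/-!
The criterion for the angle between the accelerations together with the energy equality, internal
form. The proof of `mid` is the one of helper327 (`Pool/Agent/N327/LE/Mid.lean`) with the energy
equality recorded in addition.
-/

set_option autoImplicit false
set_option linter.unusedSectionVars false

open MeasureTheory Set Filter Topology
open scoped InnerProductSpace ENNReal ContDiff NNReal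

namespace Pool.Agent.N830.EL.Obtuse

open H772R2.NS H772R2.NS.Pub H772R2.NSR H772R2.NSG
open Pool.Agent.W795.TQ
open Pool.Agent.Y303.RA (Hom hom_tensL rate)
open Pool.Agent.N327.AC (mem_ae)
open Pool.Agent.N327.LE
open Pool.Agent.N830.EL (energy_of_str)

theorem mid (hit : S_iter) (hode : S_ode) (htp : S_dtp) (he1 : S_est1) (he2 : S_est2)
    (hloc : S_loc) (huni : S_uni) (hun : S_univ) {k : ℝ} (hk0 : 0 ≤ k) (hk1 : k < 1) :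
    ∃ κ : ℝ, 0 < κ ∧
    ∀ (Ω : Set E3), IsOpen Ω → Bornology.IsBounded Ω → ∀ (ν T : ℝ), 0 < ν → 0 < T →
    ∀ (F F' : ℝ → L2M Ω), MemLp F' 2 (volume.restrict (Ioc 0 T)) →
    (∀ a b, 0 ≤ a → a ≤ b → b ≤ T → F b - F a = ∫ s in a..b, F' s) →
    ∀ (u : ℝ → L2V Ω) (z : ℝ → L2M Ω), AEStronglyMeasurable u (volume.restrict (Ioc 0 T)) →
    (∀ᵐ t ∂(volume.restrict (Ioc 0 T)), (u t, z t) ∈ graphW Ω) →
    MemLp z 2 (volume.restrict (Ioc 0 T)) →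
    (∀ φ : E3 → E3, H772R2.NS.IsTest Ω φ → ∀ t ∈ Icc 0 T,
      (∫ x in (show Set R3 from Ω), ⟪L2.fn (Ω := Ω) (E := R3) (u t) x, (φ : R3 → R3) x⟫_ℝ)
        - (∫ x in (show Set R3 from Ω), ⟪L2.fn (Ω := Ω) (E := R3) (u 0) x, (φ : R3 → R3) x⟫_ℝ)
      = ∫ s in (0 : ℝ)..t, Pub.rhs (Ω := Ω) ν (u s) (z s) (F s) φ) →
    (∀ t ∈ Icc 0 T, ‖u t‖ ^ 2 / 2 + ν * (∫ s in (0 : ℝ)..t, ‖z s‖ ^ 2)
      ≤ ‖u 0‖ ^ 2 / 2 + ∫ s in (0 : ℝ)..t, ⟪F s, z s⟫_ℝ) →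
    ∀ z0 : L2M Ω, (u 0, z0) ∈ graphW Ω →
    (∃ h : L2V Ω, ∀ φ : E3 → E3, H772R2.NS.IsTest Ω φ →
      Pub.rhs (Ω := Ω) ν (u 0) z0 (F 0) φ
        = ∫ x in (show Set R3 from Ω), ⟪L2.fn (Ω := Ω) (E := R3) h x, (φ : R3 → R3) x⟫_ℝ) →
    (∀ t ∈ Icc 0 T, ‖u t‖ ^ 2 / 2 + ν * (∫ s in (0 : ℝ)..t, ‖z s‖ ^ 2)
      = ‖u 0‖ ^ 2 / 2 + ∫ s in (0 : ℝ)..t, ⟪F s, z s⟫_ℝ) ∨
    ∃ τ ∈ Ioc 0 T, ∃ (u' : ℝ → L2V Ω) (G1 G' : ℝ → L2M Ω),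
      (∀ t ∈ Ioo 0 τ, IsStrong (show Set R3 from Ω) ν t F u u' G1 G') ∧
      (∀ t ∈ Ico 0 τ, ‖u t‖ ^ 2 / 2 + ν * (∫ s in (0 : ℝ)..t, ‖z s‖ ^ 2)
        = ‖u 0‖ ^ 2 / 2 + ∫ s in (0 : ℝ)..t, ⟪F s, z s⟫_ℝ) ∧
      ∀ (Λ : ℝ → ℝ) (t1 : ℝ), (∀ t, 0 ≤ Λ t) → t1 < τ → IntegrableOn Λ (Ioo t1 τ) →
        ¬ ∀ᵐ t ∂(volume.restrict (Ioo t1 τ)), ∃ (P : E3 → E3) (g : E3 → ℝ),
          MemLp P (6 / 5) ((volume : Measure E3).restrict Ω) ∧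
          (∀ ψ : E3 → E3, H772R2.NS.IsTest Ω ψ → ∫ x in Ω, ⟪P x, ψ x⟫_ℝ = 0) ∧
          AEStronglyMeasurable g ((volume : Measure E3).restrict Ω) ∧
          eLpNorm g 1 ((volume : Measure E3).restrict Ω)
            ≤ ENNReal.ofReal (κ * ν ^ (5 / 2 : ℝ) * (τ - t) ^ (-(3 / 2) : ℝ)) ∧
          ∀ᵐ x ∂((volume : Measure E3).restrict Ω),
            -((k * ν / (4 * (τ - t)) + Λ t) * ‖G1 t x‖ ^ 2 + g x) ≤
              ⟪u' t x, u' t x + mv (G1 t x) (u t x) + P x⟫_ℝ := by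
  obtain ⟨c, hc, hU⟩ := hun
  obtain ⟨κ₀, hκ₀, hrate⟩ := rate hit hode htp he1 he2 hloc huni c hc
  have h1k : 0 < 1 - k := by linarith
  refine ⟨(1 - k) / (96 * c ^ 2), by positivity, ?_⟩
  intro Ω hΩ hb ν T hν hT F F' hF1 hF u z hmeas hmem hz2 heqn hen z0 h0 hg
  obtain ⟨C, Fr⟩ := exists_frame hΩ hb
  obtain ⟨g0, hg0⟩ := hg
  have hm : MeasurableSet Ω := hΩ.measurableSet
  have hcomp : ∀ p ∈ graphW Ω, ⟪F 0 - ν • z0 + tensL (u 0), p.2⟫_ℝ = ⟪g0, p.1⟫_ℝ := by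
    refine compat_ext ?_
    rintro p ⟨φ, k1, k2, k3⟩
    rw [← pub_rhs hm ν (F 0) h0 k3, ← pub_inner (Ω := Ω) g0 k2]
    exact hg0 φ k1
  have hFc : ContinuousOn F (Icc 0 T) := prim_cont hF1 hF
  have hLH := lh_mid hΩ hFc Fr hmeas hmem hz2 heqn hen
  rcases hrate (L2V Ω) (L2M Ω) (graphW Ω) tensL C ν T F F' (u 0) g0 z0 u z Fr (hU _ hΩ)
    (rellich_W hΩ hb) hν hT ⟨hF1, hF⟩ h0 hcomp hLH with ⟨w, w1, y, y1, k1, k2⟩ | ⟨τ, hτ, k1, _, k3⟩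
  · exact Or.inl (energy_of_str Fr hT k1 k2 hmem)
  refine Or.inr ⟨τ, hτ, deriv u, gz (graphW Ω) u, deriv (gz (graphW Ω) u),
    fun t ht => strong_of_str hΩ ht.1 (k1 t ht) fun _ _ => rfl, fun t ht => ?_, ?_⟩
  · have h1 : (t + τ) / 2 ∈ Ioo 0 τ := ⟨by linarith [ht.1, hτ.1], by linarith [ht.2]⟩
    refine energy_of_str Fr h1.1 (k1 _ h1) (fun _ _ => rfl) ?_ t ⟨ht.1, by linarith [ht.2]⟩
    exact ae_mono (Measure.restrict_mono (Ioc_subset_Ioc_right (h1.2.le.trans hτ.2)) le_rfl) hmem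
  intro Λ t1 hΛ0 ht1 hΛi hyp
  have hν52 : 0 < ν ^ (5 / 2 : ℝ) := Real.rpow_pos_of_pos hν _
  have ht2 : max t1 0 < τ := max_lt ht1 hτ.1
  have hmem2 := mem_ae hτ.1 k1
  refine core2 Fr (hom_tensL hm) hν hτ.1 hτ.2 ⟨hF1, hF⟩ k1 hκ₀ k3 (hU _ hΩ) (k := k)
    (σ := (1 - k) / (96 * c ^ 2) * ν ^ (5 / 2 : ℝ)) (t1 := max t1 0) hk0 hk1 (by positivity)
    (le_of_eq (by field_simp)) ht2 (Λ := Λ) hΛ0
    (hΛi.mono_set (Ioo_subset_Ioo_left (le_max_left _ _))) ?_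
  filter_upwards [ae_mono (Measure.restrict_mono (Ioo_subset_Ioo_left (le_max_left _ _)) le_rfl) hyp,
    ae_mono (Measure.restrict_mono (Ioo_subset_Ioo_left (le_max_right _ _)) le_rfl) hmem2,
    ae_restrict_mem measurableSet_Ioo] with t h1 h2 htI
  obtain ⟨P, g, e1, e2, e3, e4, e5⟩ := h1
  have hp : 0 < τ - t := by linarith [htI.2]
  have hp32 : 0 ≤ (τ - t) ^ (-(3 / 2) : ℝ) := Real.rpow_nonneg hp.le _
  exact prod_le Fr hm (p := (u t, gz (graphW Ω) u t))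
    (q := (deriv u t, deriv (gz (graphW Ω) u) t)) h2.1 h2.2 e1 e2 e3 (by positivity) e4 e5

end Pool.Agent.N830.EL.Obtuse
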